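import Pool.Agent.Helper2.Gap.Milnor

/-!
# Groups with locally finite derived subgroup: powers of the generators are central
-/

namespace Pool.Agent.Helper2.Gap

open Pointwise

theorem commute_right_of_mul_pow_eq {G : Type*} [Group G] (s t : G) (K : ℕ)
    (h : (s * t) ^ K = (t * s) ^ K) : Commute t ((s * t) ^ K) ∧ Commute s ((s * t) ^ K) := by
  have h1 : t * (s * t) ^ K = (t * s) ^ K * t := by
    induction K with
    | zero => simp
    | succ K _ =>
      clear h
      have : ∀ n : ℕ, t * (s * t) ^ n = (t * s) ^ n * t := by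
        intro n
        induction n with
        | zero => simp
        | succ n ih =>
          rw [pow_succ (s * t), pow_succ (t * s), ← mul_assoc, ih]
          group
      exact this _
  have h2 : ∀ n : ℕ, s * (t * s) ^ n = (s * t) ^ n * s := by
    intro n
    induction n with
    | zero => simp
    | succ n ih =>
      rw [pow_succ (s * t), pow_succ (t * s), ← mul_assoc, ih]
      group
  constructor
  · change t * (s * t) ^ K = (s * t) ^ K * t
    rw [h1, h]
  · change s * (s * t) ^ K = (s * t) ^ K * s
    rw [← h2 K, h]

theorem pair_one {G : Type*} [Group G] (s t : G) : (t * s * t⁻¹ * s⁻¹) * (s * t) = t * s := by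
  group

theorem pair_two {G : Type*} [Group G] (s t : G) :
    (s * (t * s * t⁻¹ * s⁻¹) * s⁻¹) * (s * (s * t)) = s * (t * s) := by
  group

/-- The local form of the argument: if `(s t)^K = (t s)^K` and `(s s t)^L = (s t s)^L`, and
elements of the derived subgroup have finite order, then a power of `s` commutes with `t`. -/
theorem exists_pow_commute {G : Type*} [Group G]
    (htor : ∀ g ∈ commutator G, IsOfFinOrder g) (s t : G) (K L : ℕ) (hK : 0 < K) (hL : 0 < L)
    (h1 : (s * t) ^ K = (t * s) ^ K) (h2 : (s * (s * t)) ^ L = (s * (t * s)) ^ L) :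
    ∃ M : ℕ, 0 < M ∧ Commute (s ^ M) t := by
  have h1' : (s * t) ^ (K * L) = (t * s) ^ (K * L) := by rw [pow_mul, pow_mul, h1]
  have h2' : (s * (s * t)) ^ (K * L) = ((s * t) * s) ^ (K * L) := by
    have e : (s * t) * s = s * (t * s) := mul_assoc _ _ _
    rw [e, mul_comm K L, pow_mul, pow_mul, h2]
  obtain ⟨c1t, c1s⟩ := commute_right_of_mul_pow_eq s t (K * L) h1'
  obtain ⟨c2y, c2s⟩ := commute_right_of_mul_pow_eq s (s * t) (K * L) h2'
  set z₁ : G := (s * t) ^ (K * L) with hz₁
  set z₂ : G := (s * (s * t)) ^ (K * L) with hz₂
  have c2t : Commute t z₂ := by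
    have : Commute (s⁻¹ * (s * t)) z₂ := (c2s.inv_left).mul_left c2y
    simpa using this
  -- the element of the derived subgroup
  set h : G := z₁ * z₂⁻¹ * s ^ (K * L) with hh
  have hmem : h ∈ commutator G := by
    rw [← Abelianization.ker_of, MonoidHom.mem_ker, hh, hz₁, hz₂]
    simp only [map_mul, map_inv, map_pow]
    set S := Abelianization.of s
    set T := Abelianization.of t
    have : (S * T) ^ (K * L) * ((S * (S * T)) ^ (K * L))⁻¹ * S ^ (K * L) = 1 := by
      rw [mul_pow S (S * T), mul_inv]
      calc (S * T) ^ (K * L) * ((S ^ (K * L))⁻¹ * ((S * T) ^ (K * L))⁻¹) * S ^ (K * L)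
          = ((S * T) ^ (K * L) * ((S * T) ^ (K * L))⁻¹) * ((S ^ (K * L))⁻¹ * S ^ (K * L)) := by
            rw [mul_comm ((S ^ (K * L))⁻¹) (((S * T) ^ (K * L))⁻¹), ← mul_assoc, mul_assoc]
        _ = 1 := by rw [mul_inv_cancel, inv_mul_cancel, one_mul]
    exact this
  obtain ⟨e, he, hhe⟩ := isOfFinOrder_iff_pow_eq_one.1 (htor h hmem)
  have cs1 : Commute (s ^ (K * L)) z₁ := c1s.pow_left _
  have cs2 : Commute (s ^ (K * L)) z₂ := c2s.pow_left _
  have c12 : Commute z₁ z₂ := by
    have : Commute (s * t) z₂ := c2s.mul_left c2t
    exact this.pow_left _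
  have hs : s ^ (K * L) = (z₁ * z₂⁻¹)⁻¹ * h := by rw [hh]; group
  have hcomm : Commute ((z₁ * z₂⁻¹)⁻¹) h := by
    apply Commute.inv_left
    rw [hh]
    apply Commute.mul_right
    · exact Commute.refl _
    · exact (cs1.mul_right cs2.inv_right).symm
  refine ⟨K * L * e, Nat.mul_pos (Nat.mul_pos hK hL) he, ?_⟩
  rw [pow_mul, hs, hcomm.mul_pow, hhe, mul_one]
  apply Commute.pow_left
  apply Commute.inv_left
  exact (c1t.symm).mul_left (c2t.symm.inv_left)

/-- A finitely generated group with locally finite derived subgroup, in which some power of every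
generator is central, is finite modulo its center. -/
theorem finiteIndex_center {G : Type*} [Group G] (S : Finset G)
    (hS : Subgroup.closure (S : Set G) = ⊤)
    (hlf : ∀ T : Finset G, (T : Set G) ⊆ commutator G → Finite (Subgroup.closure (T : Set G)))
    (M : ℕ) (hM : 0 < M) (hc : ∀ s ∈ S, s ^ M ∈ Subgroup.center G) :
    (Subgroup.center G).FiniteIndex := by
  classical
  have hfg : Group.FG G := ⟨⟨S, hS⟩⟩
  let Z := Subgroup.center G
  let Q := G ⧸ Z
  let q : G →* Q := QuotientGroup.mk' Z
  have hq : Function.Surjective q := QuotientGroup.mk'_surjective Z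
  have hQfg : Group.FG Q := inferInstance
  -- the derived subgroup of `Q` is locally finite
  have hcQ : commutator Q = (commutator G).map q := by
    rw [commutator_def, commutator_def, Subgroup.map_commutator,
      Subgroup.map_top_of_surjective q hq]
  have hlfQ : ∀ T : Finset Q, (T : Set Q) ⊆ commutator Q →
      Finite (Subgroup.closure (T : Set Q)) := by
    intro T hT
    have hlift : ∀ x : Q, ∃ g : G, x ∈ T → (g ∈ commutator G ∧ q g = x) := by
      intro x
      by_cases hx : x ∈ T
      · have := hT hx
        rw [hcQ] at this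
        obtain ⟨g, hg, hgx⟩ := this
        exact ⟨g, fun _ => ⟨hg, hgx⟩⟩
      · exact ⟨1, fun h => absurd h hx⟩
    choose f hf using hlift
    have h1 := hlf (T.image f) (by
      intro g hg
      rw [Finset.mem_coe, Finset.mem_image] at hg
      obtain ⟨x, hx, rfl⟩ := hg
      exact (hf x hx).1)
    have h2 : Subgroup.closure (T : Set Q) = (Subgroup.closure ((T.image f : Finset G) : Set G)).map q := by
      rw [MonoidHom.map_closure]
      congr 1
      ext x
      constructor
      · intro hx
        exact ⟨f x, Finset.mem_coe.2 (Finset.mem_image_of_mem f hx), (hf x hx).2⟩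
      · rintro ⟨g, hg, rfl⟩
        rw [Finset.mem_coe, Finset.mem_image] at hg
        obtain ⟨x, hx, rfl⟩ := hg
        rw [(hf x hx).2]
        exact hx
    rw [h2]
    have h3 : Finite ((Subgroup.closure ((T.image f : Finset G) : Set G)) : Set G) := h1
    exact Set.Finite.image q (Set.toFinite _)
  -- the abelianization of `Q` is finite
  have hAfin : Finite (Abelianization Q) := by
    have hAfg : Group.FG (Abelianization Q) := (inferInstance : Group.FG (Q ⧸ commutator Q))
    have hA : ∀ x : Abelianization Q, x ^ M = 1 := by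
      let p : G →* Abelianization Q := Abelianization.of.comp q
      have hp : Function.Surjective p :=
        (QuotientGroup.mk'_surjective _).comp hq
      have hle : (⊤ : Subgroup G) ≤ ((powMonoidHom M).comp p).ker := by
        rw [← hS, Subgroup.closure_le]
        intro s hs
        rw [SetLike.mem_coe, MonoidHom.mem_ker]
        change (p s) ^ M = 1
        rw [← map_pow]
        change Abelianization.of (q (s ^ M)) = 1
        have : q (s ^ M) = 1 := (QuotientGroup.eq_one_iff _).2 (hc s hs)
        rw [this, map_one]
      intro x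
      obtain ⟨g, rfl⟩ := hp x
      have := hle (Subgroup.mem_top g)
      rw [MonoidHom.mem_ker] at this
      exact this
    apply CommGroup.finite_of_fg_isMulTorsion
    intro x
    exact isOfFinOrder_iff_pow_eq_one.2 ⟨M, hM, hA x⟩
  have hidx : (commutator Q).FiniteIndex := by
    have : Finite (Q ⧸ commutator Q) := hAfin
    exact Subgroup.finiteIndex_of_finite_quotient
  have hcfg : Group.FG (commutator Q) := inferInstance
  have hcfin : Finite (commutator Q) := by
    have h1 : (commutator Q).FG := (Group.fg_iff_subgroup_fg _).1 hcfg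
    obtain ⟨T, hT⟩ := h1
    have := hlfQ T (by rw [← hT]; exact Subgroup.subset_closure)
    rw [hT] at this
    exact this
  have hQfin : Finite Q := by
    have : Finite (Q ⧸ commutator Q) := hAfin
    exact Finite.of_equiv _ (Subgroup.groupEquivQuotientProdSubgroup (s := commutator Q)).symm
  exact Subgroup.finiteIndex_of_finite_quotient

end Pool.Agent.Helper2.Gap
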