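import Pool.Agent.Helper2.Gap.Central

/-!
# Exponential growth rates of finite sets
-/

namespace Pool.Agent.Helper2.Gap

open Pointwise Filter Topology

/-- In a commutative group the `n`-th power of a finite set is small. -/
theorem card_pow_le_comm {A : Type*} [CommGroup A] [DecidableEq A] (S : Finset A) (n : ℕ) :
    (S ^ n).card ≤ (n + 1) ^ S.card := by
  classical
  have key : ∀ n : ℕ, ∀ x ∈ S ^ n, ∃ m : A → ℕ, (∀ s, m s ≤ n) ∧ x = ∏ s ∈ S, s ^ m s := by
    intro n
    induction n with
    | zero =>
      intro x hx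
      rw [pow_zero, Finset.mem_one] at hx
      exact ⟨fun _ => 0, fun _ => le_refl _, by simp [hx]⟩
    | succ n ih =>
      intro x hx
      rw [pow_succ] at hx
      obtain ⟨y, hy, z, hz, rfl⟩ := Finset.mem_mul.1 hx
      obtain ⟨m, hm, rfl⟩ := ih y hy
      refine ⟨fun s => m s + if s = z then 1 else 0, ?_, ?_⟩
      · intro s
        have := hm s
        change m s + (if s = z then 1 else 0) ≤ n + 1
        split_ifs <;> omega
      · have : ∀ s ∈ S, s ^ (m s + if s = z then 1 else 0) = s ^ m s * (if s = z then z else 1) := by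
          intro s _
          rw [pow_add]
          by_cases h : s = z
          · simp [h]
          · simp [h]
        rw [Finset.prod_congr rfl this, Finset.prod_mul_distrib, Finset.prod_ite_eq' S z (fun _ => z),
          if_pos hz]
  have hsub : S ^ n ⊆ (Finset.univ : Finset (S → Fin (n + 1))).image
      (fun m => ∏ s : S, (s : A) ^ (m s : ℕ)) := by
    intro x hx
    obtain ⟨m, hm, rfl⟩ := key n x hx
    rw [Finset.mem_image]
    refine ⟨fun s => ⟨m s, Nat.lt_succ_of_le (hm s)⟩, Finset.mem_univ _, ?_⟩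
    rw [← Finset.prod_coe_sort S (fun s => s ^ m s)]
  refine (Finset.card_le_card hsub).trans (Finset.card_image_le.trans ?_)
  rw [Finset.card_univ, Fintype.card_fun, Fintype.card_fin, Fintype.card_coe]

theorem card_pow_le_of_finite_commutator {G : Type*} [Group G] [DecidableEq G] (S : Finset G)
    [Finite (commutator G)] (n : ℕ) :
    (S ^ n).card ≤ Nat.card (commutator G) * (n + 1) ^ S.card := by
  classical
  have h1 : (S ^ n).card ≤ Nat.card (commutator G) *
      ((S ^ n).image (Abelianization.of : G →* Abelianization G)).card := by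
    apply Finset.card_le_mul_card_image
    intro b hb
    obtain ⟨g, hg, rfl⟩ := Finset.mem_image.1 hb
    have : ∀ a ∈ (S ^ n).filter (fun a => Abelianization.of a = Abelianization.of g),
        g⁻¹ * a ∈ commutator G := by
      intro a ha
      rw [Finset.mem_filter] at ha
      rw [← Abelianization.ker_of, MonoidHom.mem_ker, map_mul, map_inv, ha.2, inv_mul_cancel]
    have hft : Fintype (commutator G) := Fintype.ofFinite _
    rw [Nat.card_eq_fintype_card, ← Finset.card_univ]
    apply Finset.card_le_card_of_injOn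
      (fun a => if h : g⁻¹ * a ∈ commutator G then (⟨g⁻¹ * a, h⟩ : commutator G) else 1)
    · intro a _
      exact Finset.mem_coe.2 (Finset.mem_univ _)
    · intro a ha a' ha' haa
      have e1 := this a (Finset.mem_coe.1 ha)
      have e2 := this a' (Finset.mem_coe.1 ha')
      simp only [e1, e2, dif_pos, Subtype.mk.injEq] at haa
      exact mul_left_cancel haa
  refine h1.trans (Nat.mul_le_mul_left _ ?_)
  rw [Finset.image_pow]
  refine (card_pow_le_comm _ n).trans ?_
  exact Nat.pow_le_pow_right (Nat.succ_pos n) Finset.card_image_le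

theorem finite_commutator_of_finiteIndex_center {G : Type*} [Group G]
    (h : (Subgroup.center G).FiniteIndex) : Finite (commutator G) := by
  have hQ : Finite (G ⧸ Subgroup.center G) := Subgroup.finite_quotient_of_finiteIndex
  have hset : Finite (commutatorSet G) := by
    let f : (G ⧸ Subgroup.center G) × (G ⧸ Subgroup.center G) → G := fun p =>
      Quotient.out p.1 * Quotient.out p.2 * (Quotient.out p.1)⁻¹ * (Quotient.out p.2)⁻¹
    have hsub : commutatorSet G ⊆ Set.range f := by
      rintro _ ⟨g, k, rfl⟩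
      refine ⟨(QuotientGroup.mk g, QuotientGroup.mk k), ?_⟩
      obtain ⟨a, ha⟩ := QuotientGroup.mk_out_eq_mul (Subgroup.center G) g
      obtain ⟨b, hb⟩ := QuotientGroup.mk_out_eq_mul (Subgroup.center G) k
      change (QuotientGroup.mk g : G ⧸ Subgroup.center G).out *
        (QuotientGroup.mk k : G ⧸ Subgroup.center G).out * _ * _ = _
      rw [ha, hb]
      have ca : ∀ x, (a : G) * x = x * a := fun x => (Subgroup.mem_center_iff.1 a.2 x).symm
      have cb : ∀ x, (b : G) * x = x * b := fun x => (Subgroup.mem_center_iff.1 b.2 x).symm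
      rw [commutatorElement_def]
      calc g * a * (k * b) * (g * (a : G))⁻¹ * (k * (b : G))⁻¹
          = g * (a * (k * b)) * (a : G)⁻¹ * g⁻¹ * (b : G)⁻¹ * k⁻¹ := by group
        _ = g * ((k * b) * a) * (a : G)⁻¹ * g⁻¹ * (b : G)⁻¹ * k⁻¹ := by rw [ca]
        _ = g * k * (b * g⁻¹) * (b : G)⁻¹ * k⁻¹ := by group
        _ = g * k * (g⁻¹ * b) * (b : G)⁻¹ * k⁻¹ := by rw [cb]
        _ = g * k * g⁻¹ * k⁻¹ := by group
    exact Set.Finite.subset (Set.finite_range f) hsub
  infer_instance

theorem subadditive_log_card {G : Type*} [Group G] [DecidableEq G] (S : Finset G)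
    (hne : S.Nonempty) : Subadditive (fun n : ℕ => Real.log ((S ^ n).card : ℝ)) := by
  intro m n
  have hm : (0 : ℝ) < ((S ^ m).card : ℝ) := by exact_mod_cast (hne.pow).card_pos
  have hn : (0 : ℝ) < ((S ^ n).card : ℝ) := by exact_mod_cast (hne.pow).card_pos
  have hmn : (0 : ℝ) < ((S ^ (m + n)).card : ℝ) := by exact_mod_cast (hne.pow).card_pos
  change Real.log ((S ^ (m + n)).card : ℝ) ≤ Real.log ((S ^ m).card : ℝ) + Real.log ((S ^ n).card : ℝ)
  rw [← Real.log_mul hm.ne' hn.ne']
  apply Real.log_le_log hmn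
  rw [pow_add]
  exact_mod_cast Finset.card_mul_le

theorem log_card_nonneg {G : Type*} [Group G] [DecidableEq G] (S : Finset G)
    (hne : S.Nonempty) (n : ℕ) : 0 ≤ Real.log ((S ^ n).card : ℝ) / n := by
  apply div_nonneg _ (Nat.cast_nonneg _)
  apply Real.log_nonneg
  have := (hne.pow (n := n)).card_pos
  exact_mod_cast this

theorem exists_rate {G : Type*} [Group G] [DecidableEq G] (S : Finset G)
    (hne : S.Nonempty) : ∃ ρ : ℝ, Tendsto (fun n : ℕ => Real.log ((S ^ n).card : ℝ) / n) atTop
      (𝓝 ρ) := by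
  refine ⟨(subadditive_log_card S hne).lim, (subadditive_log_card S hne).tendsto_lim ⟨0, ?_⟩⟩
  rintro _ ⟨n, rfl⟩
  exact log_card_nonneg S hne n

theorem rate_ge {G : Type*} [Group G] [DecidableEq G] (S : Finset G) (ρ : ℝ)
    (hρ : Tendsto (fun n : ℕ => Real.log ((S ^ n).card : ℝ) / n) atTop (𝓝 ρ)) (l : ℕ) (hl : 0 < l)
    (h : ∀ n : ℕ, 2 ^ n ≤ ((S ^ l) ^ n).card) : Real.log 2 / l ≤ ρ := by
  have hl' : (0 : ℝ) < l := by exact_mod_cast hl
  have hsub : Tendsto (fun n : ℕ => l * n) atTop atTop :=
    tendsto_id.const_mul_atTop' hl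
  have h1 := hρ.comp hsub
  refine ge_of_tendsto h1 ?_
  filter_upwards [eventually_gt_atTop 0] with n hn
  have hn' : (0 : ℝ) < n := by exact_mod_cast hn
  simp only [Function.comp_apply]
  rw [Nat.cast_mul, div_le_div_iff₀ hl' (mul_pos hl' hn')]
  have h2 : (n : ℝ) * Real.log 2 ≤ Real.log ((S ^ (l * n)).card : ℝ) := by
    rw [← Real.log_pow]
    apply Real.log_le_log (by positivity)
    rw [pow_mul]
    exact_mod_cast h n
  nlinarith [h2, hl'.le]

theorem rate_zero {G : Type*} [Group G] [DecidableEq G] (S : Finset G) (hne : S.Nonempty) (ρ : ℝ)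
    (hρ : Tendsto (fun n : ℕ => Real.log ((S ^ n).card : ℝ) / n) atTop (𝓝 ρ))
    (hfin : Finite (commutator G)) : ρ = 0 := by
  apply tendsto_nhds_unique hρ
  have hup : ∀ n : ℕ, Real.log ((S ^ n).card : ℝ) / n ≤
      Real.log (Nat.card (commutator G)) / n + S.card * (Real.log ((n : ℝ) + 1) / n) := by
    intro n
    have hpos : (0 : ℝ) < (Nat.card (commutator G) : ℝ) := by exact_mod_cast Nat.card_pos
    have hcard : (0 : ℝ) < ((S ^ n).card : ℝ) := by exact_mod_cast (hne.pow (n := n)).card_pos
    have h1 : Real.log ((S ^ n).card : ℝ) ≤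
        Real.log (Nat.card (commutator G)) + S.card * Real.log ((n : ℝ) + 1) := by
      have h2 : ((S ^ n).card : ℝ) ≤ (Nat.card (commutator G) : ℝ) * ((n : ℝ) + 1) ^ S.card := by
        exact_mod_cast card_pow_le_of_finite_commutator S n
      have h3 := Real.log_le_log hcard h2
      rw [Real.log_mul hpos.ne' (by positivity), Real.log_pow] at h3
      exact h3
    calc Real.log ((S ^ n).card : ℝ) / n ≤
        (Real.log (Nat.card (commutator G)) + S.card * Real.log ((n : ℝ) + 1)) / n :=
          div_le_div_of_nonneg_right h1 (Nat.cast_nonneg _)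
      _ = _ := by ring
  have hlim : Tendsto (fun n : ℕ => Real.log (Nat.card (commutator G)) / n +
      S.card * (Real.log ((n : ℝ) + 1) / n)) atTop (𝓝 (0 + S.card * 0)) := by
    apply Tendsto.add
    · exact tendsto_const_div_atTop_nhds_zero_nat _
    · apply Tendsto.const_mul
      have h1 : Tendsto (fun x : ℝ => Real.log x / x) atTop (𝓝 0) :=
        Real.isLittleO_log_id_atTop.tendsto_div_nhds_zero
      have h2 : Tendsto (fun n : ℕ => ((n : ℝ) + 1)) atTop atTop :=
        tendsto_atTop_add_const_right _ _ tendsto_natCast_atTop_atTop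
      have h3 := h1.comp h2
      have h4 : Tendsto (fun n : ℕ => (1 : ℝ) + 1 / (n : ℝ)) atTop (𝓝 (1 + 0)) :=
        tendsto_const_nhds.add (tendsto_const_div_atTop_nhds_zero_nat 1)
      have h5 := h3.mul h4
      rw [zero_mul] at h5
      refine h5.congr' ?_
      filter_upwards [eventually_gt_atTop 0] with n hn
      have hn' : (0 : ℝ) < n := by exact_mod_cast hn
      simp only [Function.comp_apply]
      field_simp
  rw [mul_zero, add_zero] at hlim
  exact squeeze_zero (log_card_nonneg S hne) hup hlim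

end Pool.Agent.Helper2.Gap
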